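import Mathlib

set_option autoImplicit false

open MeasureTheory AddCircle
open scoped ENNReal ComplexConjugate

namespace Pool.Agent.Work.MP_3119c3_an

/-- The circle is parametrised by `UnitAddCircle = ℝ/ℤ` via `x ↦ e^{2πix}`; `mT` is the normalised
Lebesgue measure on it. -/
noncomputable abbrev mT : Measure UnitAddCircle := haarAddCircle

/-- `L²(𝕋)`. -/
abbrev L2T : Type := Lp ℂ 2 mT

/-- `L^∞(𝕋)`. -/
abbrev LinfT : Type := Lp ℂ ∞ mT

/-- The point `e^{2πix}` of the unit circle. -/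
noncomputable def pt (x : UnitAddCircle) : ℂ := (toCircle x : ℂ)

/-- The operator of multiplication by `φ ∈ L^∞(𝕋)` on `L²(𝕋)`. -/
noncomputable def mulOp (φ : LinfT) : L2T →ₗ[ℂ] L2T where
  toFun f := φ • f
  map_add' f g := Lp.add_smul φ f g
  map_smul' c f := by
    simp only [RingHom.id_apply]
    exact (Lp.smul_comm c φ f).symm

lemma coe_mulOp (φ : LinfT) (f : L2T) : (mulOp φ f : UnitAddCircle → ℂ) =ᵐ[mT] fun x => φ x * f x := by
  have := Lp.coeFn_lpSMul (r := 2) φ f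
  filter_upwards [this] with x hx
  exact hx

lemma fourierCoeff_eq_inner (f : L2T) (n : ℤ) :
    fourierCoeff (f : UnitAddCircle → ℂ) n = inner ℂ (fourierLp 2 n : L2T) f := by
  rw [← fourierBasis_repr f n, HilbertBasis.repr_apply_apply, coe_fourierBasis]

/-- The Hardy space `H²`: the functions in `L²(𝕋)` whose Fourier coefficients of negative index
vanish. -/
noncomputable def hardy : Submodule ℂ L2T where
  carrier := {f | ∀ n : ℤ, n < 0 → fourierCoeff (f : UnitAddCircle → ℂ) n = 0}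
  add_mem' := by
    intro f g hf hg n hn
    rw [fourierCoeff_eq_inner, inner_add_right, ← fourierCoeff_eq_inner, ← fourierCoeff_eq_inner,
      hf n hn, hg n hn, add_zero]
  zero_mem' := by
    intro n _
    rw [fourierCoeff_eq_inner, inner_zero_right]
  smul_mem' := by
    intro c f hf n hn
    rw [fourierCoeff_eq_inner, inner_smul_right, ← fourierCoeff_eq_inner, hf n hn, mul_zero]

/-- `Θ` is an inner function: `|Θ| = 1` almost everywhere on `𝕋`, and the Fourier coefficients of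
`Θ` of negative index vanish. -/
def IsInner (Θ : LinfT) : Prop :=
  (∀ᵐ x ∂mT, ‖Θ x‖ = 1) ∧ ∀ n : ℤ, n < 0 → fourierCoeff (Θ : UnitAddCircle → ℂ) n = 0

/-- The model space `K_Θ = H² ⊖ ΘH²`. -/
noncomputable def modelSpace (Θ : LinfT) : Submodule ℂ L2T :=
  hardy ⊓ (hardy.map (mulOp Θ))ᗮ

lemma isClosed_hardy : IsClosed (hardy : Set L2T) := by
  have : (hardy : Set L2T) = ⋂ n : ℤ, ⋂ _ : n < 0, {f | inner ℂ (fourierLp 2 n : L2T) f = 0} := by
    ext f
    simp only [Set.mem_iInter, Set.mem_ofPred_eq]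
    constructor
    · intro h n hn
      rw [← fourierCoeff_eq_inner]; exact h n hn
    · intro h n hn
      rw [fourierCoeff_eq_inner]; exact h n hn
  rw [this]
  refine isClosed_iInter (fun n => isClosed_iInter (fun _ => ?_))
  exact isClosed_eq (continuous_const.inner continuous_id) continuous_const

lemma isClosed_modelSpace (Θ : LinfT) : IsClosed (modelSpace Θ : Set L2T) := by
  have : (modelSpace Θ : Set L2T) = (hardy : Set L2T) ∩ ((hardy.map (mulOp Θ))ᗮ : Submodule ℂ L2T) := rfl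
  rw [this]
  exact isClosed_hardy.inter (Submodule.isClosed_orthogonal _)

instance (Θ : LinfT) : CompleteSpace (modelSpace Θ) := (isClosed_modelSpace Θ).completeSpace_coe

/-- The truncated Toeplitz operator `A_φ^Θ f = P_Θ(φ f)`, where `P_Θ` is the orthogonal projection
of `L²(𝕋)` onto `K_Θ`. -/
noncomputable def TTO (Θ φ : LinfT) (f : L2T) : L2T := (modelSpace Θ).starProjection (mulOp φ f)

/-- The product `c ∏ᵢ (z - aᵢ) / (1 - conj(aᵢ) z)`; for `|c| = 1` and all `|aᵢ| < 1` it is the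
finite Blaschke product of degree `n` with zeros `aᵢ`. -/
noncomputable def blaschke {n : ℕ} (c : ℂ) (a : Fin n → ℂ) (z : ℂ) : ℂ :=
  c * ∏ i, (z - a i) / (1 - conj (a i) * z)

/-- `e = (e_1, ..., e_n)` is a modified Aleksandrov-Clark basis of `K_Θ`, where the inner function
`Θ` is a finite Blaschke product of degree `n`: for some unimodular `α`, the `ζ_j` are the `n`
distinct solutions of `Θ(ζ) = α`, `k_j` is the boundary kernel
`(1 - conj(α) Θ(z)) / (1 - conj(ζ_j) z)`, and `e_j = w_j k_j / ‖k_j‖`, where `w_j` is unimodular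
with `w_j² = α conj(ζ_j)`. -/
def IsModifiedACBasis {n : ℕ} (Θ : LinfT) (e : Fin n → L2T) : Prop :=
  ∃ (c : ℂ) (a : Fin n → ℂ) (α : ℂ) (ζ w : Fin n → ℂ) (k : Fin n → L2T),
    ‖c‖ = 1 ∧ (∀ i, ‖a i‖ < 1) ∧ ((Θ : UnitAddCircle → ℂ) =ᵐ[mT] fun x => blaschke c a (pt x)) ∧
    ‖α‖ = 1 ∧ Function.Injective ζ ∧ (∀ j, ‖ζ j‖ = 1) ∧ (∀ j, blaschke c a (ζ j) = α) ∧
    (∀ j, ‖w j‖ = 1) ∧ (∀ j, w j ^ 2 = α * conj (ζ j)) ∧
    (∀ j, (k j : UnitAddCircle → ℂ) =ᵐ[mT]
      fun x => (1 - conj α * blaschke c a (pt x)) / (1 - conj (ζ j) * pt x)) ∧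
    (∀ j, e j = (w j / (‖k j‖ : ℂ)) • k j)

/-- `M` is the matrix `[⟨A e_j, e_i⟩]` of a truncated Toeplitz operator `A = A_φ^Θ` with respect to
a modified Aleksandrov-Clark basis of `K_Θ`. -/
def IsModifiedACMatrix {n : ℕ} (M : Matrix (Fin n) (Fin n) ℂ) : Prop :=
  ∃ (Θ φ : LinfT) (e : Fin n → L2T), IsInner Θ ∧ IsModifiedACBasis Θ e ∧
    ∀ i j, M i j = inner ℂ (e i) (TTO Θ φ (e j))

/-- `M` is unitarily equivalent to a truncated Toeplitz operator `A = A_φ^Θ`: for some orthonormal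
basis `f_1, ..., f_n` of `K_Θ` the matrix `[⟨A f_j, f_i⟩]` is `M`. -/
def IsUnitarilyEquivalentToTTO {n : ℕ} (M : Matrix (Fin n) (Fin n) ℂ) : Prop :=
  ∃ (Θ φ : LinfT) (f : Fin n → L2T), IsInner Θ ∧ Orthonormal ℂ f ∧
    Submodule.span ℂ (Set.range f) = modelSpace Θ ∧
    ∀ i j, M i j = inner ℂ (f i) (TTO Θ φ (f j))

/-- `M` is irreducible, i.e. it has no nontrivial reducing subspace: every orthogonal projection
commuting with `M` is `0` or the identity. -/
def IsIrreducible {n : ℕ} (M : Matrix (Fin n) (Fin n) ℂ) : Prop :=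
  ∀ P : Matrix (Fin n) (Fin n) ℂ, P.IsHermitian → P * P = P → P * M = M * P → P = 0 ∨ P = 1

end Pool.Agent.Work.MP_3119c3_an
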