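import Mathlib
import Pool.Agent.Work.MP_3119c3_an.Defs

set_option autoImplicit false

open MeasureTheory AddCircle
open scoped ENNReal ComplexConjugate

namespace Pool.Agent.Work.MP_3119c3_an

lemma norm_pt (x : UnitAddCircle) : ‖pt x‖ = 1 := Circle.norm_coe _

lemma pt_eq (x : UnitAddCircle) : pt x = fourier 1 x := by rw [fourier_one, pt]

lemma measurable_pt : Continuous pt := by
  have : pt = fun x => fourier 1 x := by ext x; exact pt_eq x
  rw [this]; exact (fourier 1).continuous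

lemma coef_shift (f : L2T) (F : UnitAddCircle → ℂ) (hF : F =ᵐ[mT] fun x => pt x * f x) (n : ℤ) :
    fourierCoeff F n = fourierCoeff (f : UnitAddCircle → ℂ) (n - 1) := by
  unfold fourierCoeff
  refine integral_congr_ae ?_
  filter_upwards [hF] with x hx
  rw [hx, pt_eq, smul_eq_mul, smul_eq_mul, ← mul_assoc, ← fourier_add,
    show -n + 1 = -(n - 1) by ring]

lemma summable_coef (f : L2T) : Summable (fun n : ℤ => ‖fourierCoeff (f : UnitAddCircle → ℂ) n‖ ^ 2) :=
  (hasSum_sq_fourierCoeff f).summable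

/-- going to minus infinity -/
lemma coef_zero_neg (f : L2T) (ζ : ℂ) (hζ : ‖ζ‖ = 1) (h : ∀ n : ℤ, n < 0 →
    fourierCoeff (f : UnitAddCircle → ℂ) n = ζ * fourierCoeff (f : UnitAddCircle → ℂ) (n - 1)) :
    ∀ n : ℤ, n < 0 → fourierCoeff (f : UnitAddCircle → ℂ) n = 0 := by
  set u : ℤ → ℝ := fun n => ‖fourierCoeff (f : UnitAddCircle → ℂ) n‖ ^ 2
  have hu : Summable u := summable_coef f
  intro n hn
  have hconst : ∀ k : ℕ, u (n - k) = u n := by
    intro k
    induction k with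
    | zero => simp
    | succ k ih =>
      rw [← ih]
      have := h (n - k) (by omega)
      simp only [u]
      rw [this, norm_mul, hζ, one_mul]
      congr 3
      push_cast; ring
  have hlim : Filter.Tendsto (fun k : ℕ => u (n - k)) Filter.atTop (nhds 0) := by
    have h1 := hu.tendsto_cofinite_zero
    refine h1.comp ?_
    rw [← Nat.cofinite_eq_atTop]
    apply Function.Injective.tendsto_cofinite
    intro a b hab
    simp only at hab
    omega
  simp only [hconst] at hlim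
  have := tendsto_nhds_unique hlim tendsto_const_nhds
  simp only [u] at this
  have h2 : ‖fourierCoeff (f : UnitAddCircle → ℂ) n‖ = 0 := by
    have := this.symm
    exact pow_eq_zero_iff (n := 2) (by norm_num) |>.1 this
  exact norm_eq_zero.1 h2

/-- going to plus infinity -/
lemma coef_zero_pos (f : L2T) (ζ : ℂ) (hζ : ‖ζ‖ = 1) (h : ∀ n : ℤ, 0 < n →
    fourierCoeff (f : UnitAddCircle → ℂ) n = ζ * fourierCoeff (f : UnitAddCircle → ℂ) (n - 1)) :
    ∀ n : ℤ, 0 ≤ n → fourierCoeff (f : UnitAddCircle → ℂ) n = 0 := by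
  set u : ℤ → ℝ := fun n => ‖fourierCoeff (f : UnitAddCircle → ℂ) n‖ ^ 2
  have hu : Summable u := summable_coef f
  intro n hn
  have hconst : ∀ k : ℕ, u (n + k) = u n := by
    intro k
    induction k with
    | zero => simp
    | succ k ih =>
      rw [← ih]
      have := h (n + (k + 1 : ℕ)) (by push_cast; omega)
      simp only [u]
      rw [this, norm_mul, hζ, one_mul]
      congr 3
      push_cast; ring
  have hlim : Filter.Tendsto (fun k : ℕ => u (n + k)) Filter.atTop (nhds 0) := by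
    have h1 := hu.tendsto_cofinite_zero
    refine h1.comp ?_
    rw [← Nat.cofinite_eq_atTop]
    apply Function.Injective.tendsto_cofinite
    intro a b hab
    simp only at hab
    omega
  simp only [hconst] at hlim
  have := tendsto_nhds_unique hlim tendsto_const_nhds
  simp only [u] at this
  have h2 : ‖fourierCoeff (f : UnitAddCircle → ℂ) n‖ = 0 := by
    have := this.symm
    exact pow_eq_zero_iff (n := 2) (by norm_num) |>.1 this
  exact norm_eq_zero.1 h2

lemma orth_of_coef (f g : L2T) (hf : ∀ n : ℤ, n < 0 → fourierCoeff (f : UnitAddCircle → ℂ) n = 0)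
    (hg : ∀ n : ℤ, 0 ≤ n → fourierCoeff (g : UnitAddCircle → ℂ) n = 0) : inner ℂ f g = 0 := by
  have h := HilbertBasis.hasSum_inner_mul_inner (fourierBasis (T := 1)) f g
  have : ∀ n : ℤ, inner ℂ f (fourierBasis (T := 1) n) * inner ℂ (fourierBasis (T := 1) n) g = 0 := by
    intro n
    rw [coe_fourierBasis]
    rcases lt_or_ge n 0 with hn | hn
    · have : inner ℂ f (fourierLp 2 n : L2T) = 0 := by
        rw [← inner_conj_symm, ← fourierCoeff_eq_inner, hf n hn, map_zero]
      rw [this, zero_mul]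
    · rw [← fourierCoeff_eq_inner, hg n hn, mul_zero]
  simp only [this] at h
  exact (h.unique hasSum_zero)

lemma mem_hardy (f : L2T) : f ∈ hardy ↔ ∀ n : ℤ, n < 0 → fourierCoeff (f : UnitAddCircle → ℂ) n = 0 := Iff.rfl

lemma fourierCoeff_const_sub (c : ℂ) (F : UnitAddCircle → ℂ) (d : ℂ) (hF : Integrable F mT) (n : ℤ) (hn : n ≠ 0) :
    fourierCoeff (fun x => c - d * F x) n = - d * fourierCoeff F n := by
  have h1 : fourierCoeff (fun _ : UnitAddCircle => c) n = 0 := by
    have := fourierCoeff.const_mul (T := 1) (fun x => fourier 0 x) c n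
    simp only [fourier_zero, mul_one] at this
    rw [this]
    have h2 := fourierCoeff_fourier (T := 1) 0
    have h3 : fourierCoeff (fun _ : UnitAddCircle => (1 : ℂ)) n = 0 := by
      have h4 : (fun _ : UnitAddCircle => (1 : ℂ)) = (fun x => (fourier 0 : C(UnitAddCircle, ℂ)) x) := by
        ext x; rw [fourier_zero]
      rw [h4, fourierCoeff_fourier]
      simp [hn]
    rw [h3, mul_zero]
  have h5 : (fun x => c - d * F x) = (fun _ : UnitAddCircle => c) + (fun x => (-d) * F x) := by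
    ext x; simp; ring
  rw [h5, fourierCoeff.add (integrable_const _) (hF.const_mul _), Pi.add_apply, h1, zero_add, fourierCoeff.const_mul]

/-- the kernels are in the model space -/
lemma kernel_mem (Θ : LinfT) (hΘ : IsInner Θ) (α ζ : ℂ) (hα : ‖α‖ = 1) (hζ : ‖ζ‖ = 1)
    (B : ℂ → ℂ) (hB : (Θ : UnitAddCircle → ℂ) =ᵐ[mT] fun x => B (pt x)) (hBζ : B ζ = α)
    (k : L2T) (hk : (k : UnitAddCircle → ℂ) =ᵐ[mT] fun x => (1 - conj α * B (pt x)) / (1 - conj ζ * pt x)) :
    k ∈ modelSpace Θ := by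
  have hαα : conj α * α = 1 := by
    rw [mul_comm, Complex.mul_conj, Complex.normSq_eq_norm_sq, hα]; simp
  have hζζ : conj ζ * ζ = 1 := by
    rw [mul_comm, Complex.mul_conj, Complex.normSq_eq_norm_sq, hζ]; simp
  -- the basic identity
  have hid : ∀ᵐ x ∂mT, k x - conj ζ * (pt x * k x) = 1 - conj α * Θ x := by
    filter_upwards [hk, hB] with x hx hx2
    rw [hx, hx2]
    by_cases h : 1 - conj ζ * pt x = 0
    · have : pt x = ζ := by
        have h1 : conj ζ * pt x = conj ζ * ζ := by rw [hζζ]; exact (sub_eq_zero.1 h).symm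
        exact mul_left_cancel₀ (left_ne_zero_of_mul_eq_one hζζ) h1
      rw [this, hBζ, hζζ, hαα]; simp
    · field_simp
  have hΘint : Integrable (Θ : UnitAddCircle → ℂ) mT := (Lp.memLp Θ).integrable (by simp)
  have hkint : Integrable (k : UnitAddCircle → ℂ) mT := (Lp.memLp k).integrable (by norm_num)
  have hptk : Integrable (fun x => pt x * k x) mT := by
    refine hkint.bdd_mul (c := 1) measurable_pt.aestronglyMeasurable ?_
    exact Filter.Eventually.of_forall (fun x => (norm_pt x).le)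
  have hcoef : ∀ n : ℤ, n ≠ 0 → fourierCoeff (k : UnitAddCircle → ℂ) n =
      conj ζ * fourierCoeff (k : UnitAddCircle → ℂ) (n - 1) - conj α * fourierCoeff (Θ : UnitAddCircle → ℂ) n := by
    intro n hn
    have h1 : fourierCoeff (fun x => k x + (-conj ζ) * (pt x * k x)) n = - conj α * fourierCoeff (Θ : UnitAddCircle → ℂ) n := by
      rw [← fourierCoeff_const_sub 1 Θ (conj α) hΘint n hn]
      refine congrFun (fourierCoeff_congr_ae ?_) n
      filter_upwards [hid] with x hx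
      rw [← hx]; ring
    have h2 : fourierCoeff (fun x => k x + (-conj ζ) * (pt x * k x)) n =
        fourierCoeff (k : UnitAddCircle → ℂ) n + (-conj ζ) * fourierCoeff (k : UnitAddCircle → ℂ) (n - 1) := by
      have : (fun x => k x + (-conj ζ) * (pt x * k x)) = (k : UnitAddCircle → ℂ) + (fun x => (-conj ζ) * (pt x * k x)) := rfl
      rw [this, fourierCoeff.add hkint (hptk.const_mul _), Pi.add_apply, fourierCoeff.const_mul, coef_shift k _ (Filter.EventuallyEq.rfl) n]
    rw [h2] at h1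
    linear_combination h1
  have hkH : k ∈ hardy := by
    rw [mem_hardy]
    apply coef_zero_neg k (conj ζ) (by simpa using hζ)
    intro n hn
    rw [hcoef n hn.ne, hΘ.2 n hn, mul_zero, sub_zero]
  refine ⟨hkH, ?_⟩
  rw [SetLike.mem_coe, Submodule.mem_orthogonal]
  rintro _ ⟨g, hg, rfl⟩
  -- h = conj Θ * k
  have hmem : MemLp (fun x => conj (Θ x) * k x) 2 mT := by
    refine MemLp.mul (p := ∞) (q := 2) (hf := Lp.memLp k) (hφ := ?_)
    have := (Lp.memLp Θ).star
    exact this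
  set h : L2T := hmem.toLp _ with hh
  have hh' : (h : UnitAddCircle → ℂ) =ᵐ[mT] fun x => conj (Θ x) * k x := hmem.coeFn_toLp
  have e1 : inner ℂ (mulOp Θ g) k = inner ℂ g h := by
    rw [MeasureTheory.L2.inner_def, MeasureTheory.L2.inner_def]
    refine integral_congr_ae ?_
    filter_upwards [coe_mulOp Θ g, hh'] with x h1 h2
    rw [h1, h2]
    simp only [RCLike.inner_apply, map_mul]
    ring
  rw [e1]
  apply orth_of_coef g h hg
  -- identity for h
  have hidh : ∀ᵐ x ∂mT, h x - conj ζ * (pt x * h x) = conj (Θ x) - conj α := by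
    filter_upwards [hid, hh', hΘ.1] with x h1 h2 h3
    rw [h2]
    have h4 : conj (Θ x) * Θ x = 1 := by
      rw [mul_comm, Complex.mul_conj, Complex.normSq_eq_norm_sq, h3]; simp
    linear_combination conj (Θ x) * h1 - conj α * h4
  have hhint : Integrable (h : UnitAddCircle → ℂ) mT := (Lp.memLp h).integrable (by norm_num)
  have hpth : Integrable (fun x => pt x * h x) mT := by
    refine hhint.bdd_mul (c := 1) measurable_pt.aestronglyMeasurable ?_
    exact Filter.Eventually.of_forall (fun x => (norm_pt x).le)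
  have hΘcint : Integrable (fun x => conj (Θ x)) mT := by
    refine ⟨Complex.continuous_conj.comp_aestronglyMeasurable hΘint.1, ?_⟩
    have := hΘint.2
    unfold HasFiniteIntegral at this ⊢
    simpa using this
  have hconjcoef : ∀ n : ℤ, 0 < n → fourierCoeff (fun x => conj (Θ x)) n = 0 := by
    intro n hn
    have h1 := hΘ.2 (-n) (by omega)
    unfold fourierCoeff at h1 ⊢
    have h2 := congrArg (starRingEnd ℂ) h1
    rw [← integral_conj, map_zero] at h2
    rw [← h2]
    refine integral_congr_ae (Filter.Eventually.of_forall fun x => ?_)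
    simp only [smul_eq_mul, map_mul, ← fourier_neg, neg_neg]
  apply coef_zero_pos h (conj ζ) (by simpa using hζ)
  intro n hn
  have h1 : fourierCoeff (fun x => h x + (-conj ζ) * (pt x * h x)) n = 0 := by
    have e2 : fourierCoeff (fun x => h x + (-conj ζ) * (pt x * h x)) n =
        fourierCoeff (fun x => (-conj α) - (-1) * conj (Θ x)) n := by
      refine congrFun (fourierCoeff_congr_ae ?_) n
      filter_upwards [hidh] with x hx
      linear_combination hx
    rw [e2, fourierCoeff_const_sub _ _ _ hΘcint n hn.ne', hconjcoef n hn, mul_zero]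
  have h2 : fourierCoeff (fun x => h x + (-conj ζ) * (pt x * h x)) n =
      fourierCoeff (h : UnitAddCircle → ℂ) n + (-conj ζ) * fourierCoeff (h : UnitAddCircle → ℂ) (n - 1) := by
    have : (fun x => h x + (-conj ζ) * (pt x * h x)) = (h : UnitAddCircle → ℂ) + (fun x => (-conj ζ) * (pt x * h x)) := rfl
    rw [this, fourierCoeff.add hhint (hpth.const_mul _), Pi.add_apply, fourierCoeff.const_mul, coef_shift h _ (Filter.EventuallyEq.rfl) n]
  rw [h2] at h1
  linear_combination h1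

lemma mem_mulOp_inner (φ : LinfT) (f g : L2T) :
    inner ℂ f (mulOp φ g) = ∫ x, conj (f x) * (φ x * g x) ∂mT := by
  rw [MeasureTheory.L2.inner_def]
  refine integral_congr_ae ?_
  filter_upwards [coe_mulOp φ g] with x hx
  rw [hx]
  simp only [RCLike.inner_apply]
  ring

lemma inner_TTO (Θ φ : LinfT) (f g : L2T) (hf : f ∈ modelSpace Θ) :
    inner ℂ f (TTO Θ φ g) = inner ℂ f (mulOp φ g) := by
  unfold TTO
  rw [← Submodule.inner_starProjection_left_eq_right, Submodule.starProjection_eq_self_iff.2 hf]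

/-- the off-diagonal structure -/
lemma kernel_form (Θ φ : LinfT) (α : ℂ) (hα : ‖α‖ = 1)
    (B : ℂ → ℂ) (hB : (Θ : UnitAddCircle → ℂ) =ᵐ[mT] fun x => B (pt x)) {n : ℕ} (ζ : Fin n → ℂ)
    (hinj : Function.Injective ζ) (hζ : ∀ j, ‖ζ j‖ = 1) (hBζ : ∀ j, B (ζ j) = α)
    (k : Fin n → L2T) (hk : ∀ j, (k j : UnitAddCircle → ℂ) =ᵐ[mT]
      fun x => (1 - conj α * B (pt x)) / (1 - conj (ζ j) * pt x)) :
    ∃ H : Fin n → ℂ, ∀ i j, i ≠ j →
      inner ℂ (k i) (mulOp φ (k j)) * (ζ j - ζ i) = ζ j * (H i - H j) := by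
  have hαα : conj α * α = 1 := by
    rw [mul_comm, Complex.mul_conj, Complex.normSq_eq_norm_sq, hα]; simp
  set h : Fin n → UnitAddCircle → ℂ := fun i x => -conj (1 - conj α * Θ x) * k i x with hh
  have hint : ∀ i, Integrable (fun x => φ x * h i x) mT := by
    intro i
    have h0 : MemLp (fun x => 1 - conj α * Θ x) ∞ mT := by
      have h1 : MemLp (fun _ : UnitAddCircle => (1 : ℂ)) ∞ mT := memLp_const 1
      exact h1.sub ((Lp.memLp Θ).const_mul (conj α))
    have h1 : MemLp (fun x => -conj (1 - conj α * Θ x)) ∞ mT := h0.star.neg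
    have h2 : MemLp (h i) 2 mT := MemLp.mul (p := ∞) (q := 2) (hf := Lp.memLp (k i)) (hφ := h1)
    have h3 : MemLp (fun x => φ x * h i x) 2 mT := MemLp.mul (p := ∞) (q := 2) (hf := h2) (hφ := Lp.memLp φ)
    exact h3.integrable (by norm_num)
  refine ⟨fun i => ∫ x, φ x * h i x ∂mT, ?_⟩
  intro i j hij
  have hne : ζ j - ζ i ≠ 0 := sub_ne_zero.2 (fun h => hij (hinj h).symm)
  have hc : ∀ i, conj (ζ i) * ζ i = 1 := fun i => by
    rw [mul_comm, Complex.mul_conj, Complex.normSq_eq_norm_sq, hζ]; simp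
  rw [mem_mulOp_inner, ← integral_sub (hint i) (hint j), ← integral_mul_const, ← integral_const_mul]
  refine integral_congr_ae ?_
  filter_upwards [hB, hk i, hk j] with x hx hxi hxj
  have hzz : conj (pt x) * pt x = 1 := by
    rw [mul_comm, Complex.mul_conj, Complex.normSq_eq_norm_sq, norm_pt]; simp
  simp only [hh]
  rw [hxi, hxj, hx]
  set z := pt x with hz
  set b := B z with hb
  have hroot : ∀ l, 1 - conj (ζ l) * z = 0 → 1 - conj α * b = 0 := by
    intro l h
    have : z = ζ l := by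
      have h1 : conj (ζ l) * z = conj (ζ l) * ζ l := by rw [hc]; exact (sub_eq_zero.1 h).symm
      exact mul_left_cancel₀ (left_ne_zero_of_mul_eq_one (hc l)) h1
    rw [hb, this, hBζ, hαα, sub_self]
  by_cases hi : 1 - conj (ζ i) * z = 0
  · simp [hroot i hi]
  by_cases hj : 1 - conj (ζ j) * z = 0
  · simp [hroot j hj]
  have hci : conj ((1 - conj α * b) / (1 - conj (ζ i) * z)) = conj (1 - conj α * b) / (1 - ζ i * conj z) := by
    simp
  rw [hci]
  have hi' : 1 - ζ i * conj z ≠ 0 := by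
    intro h
    apply hi
    have := congrArg (starRingEnd ℂ) h
    simpa using this
  set u := conj (1 - conj α * b)
  set v := 1 - conj α * b
  set cz := conj z
  have key : (ζ j - ζ i) / ((1 - ζ i * cz) * (1 - conj (ζ j) * z)) =
      ζ j * (-1 / (1 - conj (ζ i) * z) + 1 / (1 - conj (ζ j) * z)) := by
    have e1 := hc i
    have e2 := hc j
    have h1 : ζ j * (-1 / (1 - conj (ζ i) * z) + 1 / (1 - conj (ζ j) * z)) =
        z * ζ j * (conj (ζ j) - conj (ζ i)) / ((1 - conj (ζ i) * z) * (1 - conj (ζ j) * z)) := by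
      rw [div_add_div _ _ hi hj, ← mul_div_assoc]
      congr 1
      ring
    rw [h1, div_eq_div_iff (mul_ne_zero hi' hj) (mul_ne_zero hi hj)]
    linear_combination (1 - conj (ζ j) * z) * ((z - z * cz * ζ j) * e1 + (-z + z * cz * ζ i) * e2 + (ζ i - ζ j) * hzz)
  calc u / (1 - ζ i * cz) * (φ x * (v / (1 - conj (ζ j) * z))) * (ζ j - ζ i)
      = u * v * φ x * ((ζ j - ζ i) / ((1 - ζ i * cz) * (1 - conj (ζ j) * z))) := by
        field_simp
    _ = _ := by
        rw [key]
        ring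

lemma unimod_identity (a b : ℂ) (ha : conj a * a = 1) (hb : conj b * b = 1) :
    (b - a) ^ 2 * conj a = -b * ((‖b - a‖ ^ 2 : ℝ) : ℂ) := by
  have h1 : ((‖b - a‖ ^ 2 : ℝ) : ℂ) = (b - a) * (conj b - conj a) := by
    rw [← Complex.normSq_eq_norm_sq, ← Complex.mul_conj, map_sub]
  rw [h1]
  linear_combination (b - a) * ha * (-1) + (b - a) * hb

/-- the key obstruction -/
lemma ac_obstruction (M : Matrix (Fin 3) (Fin 3) ℂ) (hM : IsModifiedACMatrix M) (h01 : M 0 1 = 0)
    (h02 : M 0 2 ≠ 0) (h12 : M 1 2 ≠ 0) :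
    ∃ r s : ℝ, 0 < r ∧ 0 < s ∧ (r : ℂ) * M 0 2 ^ 2 = (s : ℂ) * M 1 2 ^ 2 := by
  obtain ⟨Θ, φ, e, hΘ, ⟨c, a, α, ζ, w, k, -, -, hB, hα, hinj, hζ, hBζ, hw1, hw, hk, he⟩, hM⟩ := hM
  obtain ⟨H, hH⟩ := kernel_form Θ φ α hα (blaschke c a) hB ζ hinj hζ hBζ k hk
  have hkm : ∀ j, k j ∈ modelSpace Θ := fun j =>
    kernel_mem Θ hΘ α (ζ j) hα (hζ j) (blaschke c a) hB (hBζ j) (k j) (hk j)
  have hem : ∀ j, e j ∈ modelSpace Θ := fun j => by
    rw [he j]; exact (modelSpace Θ).smul_mem _ (hkm j)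
  have hMij : ∀ i j, M i j = conj (w i) * w j / ((‖k i‖ : ℂ) * ‖k j‖) * inner ℂ (k i) (mulOp φ (k j)) := by
    intro i j
    rw [hM i j, inner_TTO Θ φ (e i) (e j) (hem i), he i, he j, map_smul, inner_smul_left, inner_smul_right]
    simp only [map_div₀, Complex.conj_ofReal]
    ring
  have hc : ∀ i, conj (ζ i) * ζ i = 1 := fun i => by
    rw [mul_comm, Complex.mul_conj, Complex.normSq_eq_norm_sq, hζ]; simp
  have hcw : ∀ i, conj (w i) * w i = 1 := fun i => by
    rw [mul_comm, Complex.mul_conj, Complex.normSq_eq_norm_sq, hw1]; simp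
  have hn0 : (‖k 0‖ : ℂ) ≠ 0 := by
    intro h; apply h02; rw [hMij 0 2, h]; simp
  have hn1 : (‖k 1‖ : ℂ) ≠ 0 := by
    intro h; apply h12; rw [hMij 1 2, h]; simp
  have hn2 : (‖k 2‖ : ℂ) ≠ 0 := by
    intro h; apply h12; rw [hMij 1 2, h]; simp
  have hw0 : ∀ i, w i ≠ 0 := fun i => right_ne_zero_of_mul_eq_one (hcw i)
  have hcw0 : ∀ i, conj (w i) ≠ 0 := fun i => left_ne_zero_of_mul_eq_one (hcw i)
  -- H 0 = H 1
  have hI01 : inner ℂ (k 0) (mulOp φ (k 1)) = 0 := by
    have h1 := hMij 0 1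
    rw [h01] at h1
    have h2 : conj (w 0) * w 1 / ((‖k 0‖ : ℂ) * ‖k 1‖) ≠ 0 :=
      div_ne_zero (mul_ne_zero (hcw0 0) (hw0 1)) (mul_ne_zero hn0 hn1)
    exact (mul_eq_zero.1 h1.symm).resolve_left h2
  have hH01 : H 0 = H 1 := by
    have h1 := hH 0 1 (by decide)
    rw [hI01, zero_mul] at h1
    have h2 : ζ 1 ≠ 0 := right_ne_zero_of_mul_eq_one (hc 1)
    have h3 := (mul_eq_zero.1 h1.symm).resolve_left h2
    exact sub_eq_zero.1 h3
  have hE : M 0 2 * ‖k 0‖ * w 0 * (ζ 2 - ζ 0) = M 1 2 * ‖k 1‖ * w 1 * (ζ 2 - ζ 1) := by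
    have h1 := hH 0 2 (by decide)
    have h2 := hH 1 2 (by decide)
    rw [← hH01] at h2
    have h3 : M 0 2 * ‖k 0‖ * w 0 * (ζ 2 - ζ 0) = w 2 / ‖k 2‖ * (inner ℂ (k 0) (mulOp φ (k 2)) * (ζ 2 - ζ 0)) := by
      rw [hMij 0 2]
      field_simp
      linear_combination (w 2 * inner ℂ (k 0) (mulOp φ (k 2)) * (ζ 2 - ζ 0)) * hcw 0
    have h4 : M 1 2 * ‖k 1‖ * w 1 * (ζ 2 - ζ 1) = w 2 / ‖k 2‖ * (inner ℂ (k 1) (mulOp φ (k 2)) * (ζ 2 - ζ 1)) := by
      rw [hMij 1 2]
      field_simp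
      linear_combination (w 2 * inner ℂ (k 1) (mulOp φ (k 2)) * (ζ 2 - ζ 1)) * hcw 1
    rw [h3, h4, h1, h2]
  refine ⟨‖k 0‖ ^ 2 * ‖ζ 2 - ζ 0‖ ^ 2, ‖k 1‖ ^ 2 * ‖ζ 2 - ζ 1‖ ^ 2, ?_, ?_, ?_⟩
  · have h1 : ‖k 0‖ ≠ 0 := by exact_mod_cast hn0
    have h2 : ‖ζ 2 - ζ 0‖ ≠ 0 := by
      rw [norm_ne_zero_iff, sub_ne_zero]
      exact fun h => absurd (hinj h) (by decide)
    positivity
  · have h1 : ‖k 1‖ ≠ 0 := by exact_mod_cast hn1
    have h2 : ‖ζ 2 - ζ 1‖ ≠ 0 := by
      rw [norm_ne_zero_iff, sub_ne_zero]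
      exact fun h => absurd (hinj h) (by decide)
    positivity
  · have hα0 : α ≠ 0 := by
      rw [← norm_ne_zero_iff, hα]; norm_num
    have hz2 : ζ 2 ≠ 0 := right_ne_zero_of_mul_eq_one (hc 2)
    have hsq : (M 0 2 * ‖k 0‖ * w 0 * (ζ 2 - ζ 0)) ^ 2 = (M 1 2 * ‖k 1‖ * w 1 * (ζ 2 - ζ 1)) ^ 2 := by
      rw [hE]
    have u0 := unimod_identity (ζ 0) (ζ 2) (hc 0) (hc 2)
    have u1 := unimod_identity (ζ 1) (ζ 2) (hc 1) (hc 2)
    have hw0' := hw 0
    have hw1' := hw 1
    have key : (-ζ 2 * α) * (((‖k 0‖ ^ 2 * ‖ζ 2 - ζ 0‖ ^ 2 : ℝ) : ℂ) * M 0 2 ^ 2) =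
        (-ζ 2 * α) * (((‖k 1‖ ^ 2 * ‖ζ 2 - ζ 1‖ ^ 2 : ℝ) : ℂ) * M 1 2 ^ 2) := by
      have e0 : (-ζ 2 * α) * (((‖k 0‖ ^ 2 * ‖ζ 2 - ζ 0‖ ^ 2 : ℝ) : ℂ) * M 0 2 ^ 2) =
          (M 0 2 * ‖k 0‖ * w 0 * (ζ 2 - ζ 0)) ^ 2 := by
        push_cast at u0 ⊢
        linear_combination (-(α * (‖k 0‖ : ℂ) ^ 2 * M 0 2 ^ 2)) * u0 - (M 0 2 ^ 2 * (‖k 0‖ : ℂ) ^ 2 * (ζ 2 - ζ 0) ^ 2) * hw0'
      have e1 : (-ζ 2 * α) * (((‖k 1‖ ^ 2 * ‖ζ 2 - ζ 1‖ ^ 2 : ℝ) : ℂ) * M 1 2 ^ 2) =
          (M 1 2 * ‖k 1‖ * w 1 * (ζ 2 - ζ 1)) ^ 2 := by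
        push_cast at u1 ⊢
        linear_combination (-(α * (‖k 1‖ : ℂ) ^ 2 * M 1 2 ^ 2)) * u1 - (M 1 2 ^ 2 * (‖k 1‖ : ℂ) ^ 2 * (ζ 2 - ζ 1) ^ 2) * hw1'
      rw [e0, e1, hsq]
    exact mul_left_cancel₀ (mul_ne_zero (neg_ne_zero.2 hz2) hα0) key

/-! ### the example -/

noncomputable abbrev ee (n : ℤ) : L2T := fourierLp 2 n

lemma inner_ee (m n : ℤ) : inner ℂ (ee m) (ee n) = if m = n then (1 : ℂ) else 0 :=
  (orthonormal_iff_ite.1 (orthonormal_fourier (T := 1))) m n

lemma mulOp_fourier (a b : ℤ) : mulOp (fourierLp ∞ a) (ee b) = ee (a + b) := by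
  apply Lp.ext
  filter_upwards [coe_mulOp (fourierLp ∞ a) (ee b), coeFn_fourierLp (T := 1) ∞ a, coeFn_fourierLp (T := 1) 2 b,
    coeFn_fourierLp (T := 1) 2 (a + b)] with x h1 h2 h3 h4
  rw [h1, h2, h4, h3, fourier_add]

lemma ee_mem_hardy (n : ℤ) (hn : 0 ≤ n) : ee n ∈ hardy := by
  rw [mem_hardy]
  intro m hm
  rw [fourierCoeff_eq_inner, inner_ee, if_neg (by omega)]

lemma isInner_z3 : IsInner (fourierLp ∞ 3) := by
  constructor
  · filter_upwards [coeFn_fourierLp (T := 1) ∞ 3] with x hx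
    rw [hx, fourier_apply, Circle.norm_coe]
  · intro n hn
    rw [fourierCoeff_congr_ae (coeFn_fourierLp (T := 1) ∞ 3), fourierCoeff_fourier]
    exact Pi.single_eq_of_ne (by omega) _

lemma ee_mem_model (n : ℤ) (hn : 0 ≤ n) (hn3 : n < 3) : ee n ∈ modelSpace (fourierLp ∞ 3) := by
  refine ⟨ee_mem_hardy n hn, ?_⟩
  rw [SetLike.mem_coe, Submodule.mem_orthogonal]
  rintro _ ⟨g, hg, rfl⟩
  have e1 : inner ℂ (mulOp (fourierLp ∞ 3) g) (ee n) = inner ℂ g (ee (n - 3)) := by
    rw [MeasureTheory.L2.inner_def, MeasureTheory.L2.inner_def]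
    refine integral_congr_ae ?_
    filter_upwards [coe_mulOp (fourierLp ∞ 3) g, coeFn_fourierLp (T := 1) ∞ 3, coeFn_fourierLp (T := 1) 2 n,
      coeFn_fourierLp (T := 1) 2 (n - 3)] with x h1 h2 h3 h4
    rw [h1, h2, h3, h4]
    simp only [RCLike.inner_apply, map_mul]
    rw [show n - 3 = n + (-3) by ring, fourier_add, fourier_neg]
    ring
  rw [e1, ← inner_conj_symm, ← fourierCoeff_eq_inner]
  rw [SetLike.mem_coe, mem_hardy] at hg
  rw [hg (n - 3) (by omega), map_zero]

lemma model_expand (f : L2T) (hf : f ∈ modelSpace (fourierLp ∞ 3)) :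
    ∃ a b c : ℂ, f = a • ee 0 + (b • ee 1 + c • ee 2) := by
  have h := HilbertBasis.hasSum_repr (fourierBasis (T := 1)) f
  have h0 : ∀ n ∉ ({0, 1, 2} : Finset ℤ), (fourierBasis (T := 1)).repr f n • fourierBasis (T := 1) n = 0 := by
    intro n hn
    have hz : (fourierBasis (T := 1)).repr f n = 0 := by
      rw [HilbertBasis.repr_apply_apply, coe_fourierBasis]
      rcases lt_or_ge n 0 with h1 | h1
      · rw [← fourierCoeff_eq_inner]
        exact hf.1 n h1
      · have h3 : 3 ≤ n := by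
          simp only [Finset.mem_insert, Finset.mem_singleton, not_or] at hn
          omega
        have h4 := (Submodule.mem_orthogonal _ _).1 hf.2 (mulOp (fourierLp ∞ 3) (ee (n - 3)))
          ⟨ee (n - 3), ee_mem_hardy _ (by omega), rfl⟩
        rw [mulOp_fourier, show (3 : ℤ) + (n - 3) = n by ring] at h4
        exact h4
    rw [hz, zero_smul]
  have h1 := h.unique (hasSum_sum_of_ne_finset_zero h0)
  rw [Finset.sum_insert (by decide), Finset.sum_insert (by decide), Finset.sum_singleton, coe_fourierBasis] at h1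
  exact ⟨_, _, _, h1⟩

/-- 1/√2 -/
noncomputable def rr : ℂ := ((Real.sqrt 2)⁻¹ : ℝ)

lemma rr_sq : rr * rr = 1 / 2 := by
  unfold rr
  rw [← Complex.ofReal_mul, ← mul_inv, Real.mul_self_sqrt (by norm_num)]
  norm_num

lemma conj_rr : conj rr = rr := Complex.conj_ofReal _

lemma rr_ne : rr ≠ 0 := by
  intro h
  have := rr_sq
  rw [h] at this
  norm_num at this

noncomputable def ff : Fin 3 → L2T :=
  ![rr • ee 0 + rr • ee 2, (Complex.I * rr) • ee 0 - (Complex.I * rr) • ee 2, ee 1]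

noncomputable def MM : Matrix (Fin 3) (Fin 3) ℂ :=
  !![0, 0, rr; 0, 0, Complex.I * rr; rr, Complex.I * rr, 0]

lemma ff_mem (i : Fin 3) : ff i ∈ modelSpace (fourierLp ∞ 3) := by
  have h0 := ee_mem_model 0 (by norm_num) (by norm_num)
  have h1 := ee_mem_model 1 (by norm_num) (by norm_num)
  have h2 := ee_mem_model 2 (by norm_num) (by norm_num)
  fin_cases i
  · exact Submodule.add_mem _ (Submodule.smul_mem _ _ h0) (Submodule.smul_mem _ _ h2)
  · exact Submodule.sub_mem _ (Submodule.smul_mem _ _ h0) (Submodule.smul_mem _ _ h2)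
  · exact h1

lemma ff_orthonormal : Orthonormal ℂ ff := by
  rw [orthonormal_iff_ite]
  have hr := rr_sq
  have hI := Complex.I_mul_I
  intro i j
  fin_cases i <;> fin_cases j <;>
    simp [-inner_self_eq_norm_sq_to_K, ff, inner_add_left, inner_add_right, inner_sub_left, inner_sub_right,
      inner_smul_left, inner_smul_right, inner_ee, conj_rr]
  · linear_combination 2 * hr
  · linear_combination (-2 * rr * rr) * hI + 2 * hr

lemma ff_span : Submodule.span ℂ (Set.range ff) = modelSpace (fourierLp ∞ 3) := by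
  apply le_antisymm
  · rw [Submodule.span_le]
    rintro _ ⟨i, rfl⟩
    exact ff_mem i
  · intro f hf
    obtain ⟨a, b, c, rfl⟩ := model_expand f hf
    have m0 : ff 0 ∈ Submodule.span ℂ (Set.range ff) := Submodule.subset_span ⟨0, rfl⟩
    have m1 : ff 1 ∈ Submodule.span ℂ (Set.range ff) := Submodule.subset_span ⟨1, rfl⟩
    have m2 : ff 2 ∈ Submodule.span ℂ (Set.range ff) := Submodule.subset_span ⟨2, rfl⟩
    have hr := rr_sq
    have hI := Complex.I_mul_I
    have e0 : ee 0 = rr • ff 0 - (Complex.I * rr) • ff 1 := by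
      simp only [ff, Matrix.cons_val_zero, Matrix.cons_val_one]
      have : rr • (rr • ee 0 + rr • ee 2) - (Complex.I * rr) • ((Complex.I * rr) • ee 0 - (Complex.I * rr) • ee 2) =
          (rr * rr - Complex.I * Complex.I * (rr * rr)) • ee 0 + (rr * rr + Complex.I * Complex.I * (rr * rr)) • ee 2 := by
        module
      rw [this, hr, hI]
      norm_num
    have e2 : ee 2 = rr • ff 0 + (Complex.I * rr) • ff 1 := by
      simp only [ff, Matrix.cons_val_zero, Matrix.cons_val_one]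
      have : rr • (rr • ee 0 + rr • ee 2) + (Complex.I * rr) • ((Complex.I * rr) • ee 0 - (Complex.I * rr) • ee 2) =
          (rr * rr + Complex.I * Complex.I * (rr * rr)) • ee 0 + (rr * rr - Complex.I * Complex.I * (rr * rr)) • ee 2 := by
        module
      rw [this, hr, hI]
      norm_num
    have h0 : ee 0 ∈ Submodule.span ℂ (Set.range ff) := by
      rw [e0]; exact Submodule.sub_mem _ (Submodule.smul_mem _ _ m0) (Submodule.smul_mem _ _ m1)
    have h2 : ee 2 ∈ Submodule.span ℂ (Set.range ff) := by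
      rw [e2]; exact Submodule.add_mem _ (Submodule.smul_mem _ _ m0) (Submodule.smul_mem _ _ m1)
    have h1 : ee 1 ∈ Submodule.span ℂ (Set.range ff) := m2
    exact Submodule.add_mem _ (Submodule.smul_mem _ _ h0)
      (Submodule.add_mem _ (Submodule.smul_mem _ _ h1) (Submodule.smul_mem _ _ h2))

lemma MM_entries (i j : Fin 3) : MM i j = inner ℂ (ff i) (TTO (fourierLp ∞ 3) (fourierLp ∞ 1) (ff j)) := by
  rw [inner_TTO _ _ _ _ (ff_mem i)]
  fin_cases i <;> fin_cases j <;>
    simp [-inner_self_eq_norm_sq_to_K, MM, ff, map_add, map_sub, map_smul, mulOp_fourier, inner_add_left, inner_add_right, inner_sub_left,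
      inner_sub_right, inner_smul_left, inner_smul_right, inner_ee, conj_rr]

lemma MM_symm : MM.IsSymm := by
  ext i j
  fin_cases i <;> fin_cases j <;> simp [MM]

lemma MM_irreducible : IsIrreducible MM := by
  intro P hP hPP hPM
  have hPMH : P * MM.conjTranspose = MM.conjTranspose * P := by
    have := congrArg Matrix.conjTranspose hPM
    rw [Matrix.conjTranspose_mul, Matrix.conjTranspose_mul, hP.eq] at this
    exact this.symm
  have hr := rr_ne
  have hA : P * !![0, 0, 1; 0, 0, 0; 1, 0, 0] = !![0, 0, 1; 0, 0, 0; 1, 0, 0] * P := by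
    have e : (!![0, 0, 1; 0, 0, 0; 1, 0, 0] : Matrix (Fin 3) (Fin 3) ℂ) = (rr⁻¹ / 2) • (MM + MM.conjTranspose) := by
      ext i j
      fin_cases i <;> fin_cases j <;> simp [MM, Matrix.conjTranspose_apply, conj_rr] <;> field_simp <;> norm_num
    rw [e, Matrix.mul_smul, Matrix.smul_mul, mul_add, add_mul, hPM, hPMH]
  have hB : P * !![0, 0, 0; 0, 0, 1; 0, 1, 0] = !![0, 0, 0; 0, 0, 1; 0, 1, 0] * P := by
    have e : (!![0, 0, 0; 0, 0, 1; 0, 1, 0] : Matrix (Fin 3) (Fin 3) ℂ) = (rr⁻¹ / (2 * Complex.I)) • (MM - MM.conjTranspose) := by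
      have hI := Complex.I_ne_zero
      ext i j
      fin_cases i <;> fin_cases j <;> simp [MM, Matrix.conjTranspose_apply, conj_rr] <;> field_simp <;> norm_num
    rw [e, Matrix.mul_smul, Matrix.smul_mul, mul_sub, sub_mul, hPM, hPMH]
  have a1 := congrFun (congrFun hA 0) 1
  have a2 := congrFun (congrFun hA 0) 2
  have a3 := congrFun (congrFun hA 1) 0
  have a4 := congrFun (congrFun hA 1) 2
  have a5 := congrFun (congrFun hA 0) 0
  have a6 := congrFun (congrFun hA 2) 1
  have b1 := congrFun (congrFun hB 1) 2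
  have b2 := congrFun (congrFun hB 0) 1
  have b3 := congrFun (congrFun hB 1) 0
  simp [Matrix.mul_apply, Fin.sum_univ_three] at a1 a2 a3 a4 a5 a6 b1 b2 b3
  have c1 := congrFun (congrFun hPP 0) 0
  simp only [Matrix.mul_apply, Fin.sum_univ_three, ← a6, b2] at c1
  have hp : P 0 0 * (P 0 0 - 1) = 0 := by linear_combination c1
  rcases mul_eq_zero.1 hp with h | h
  · left
    ext i j
    fin_cases i <;> fin_cases j <;> simp [h, ← a1, ← a2, a3, a4, b2, ← b3, ← a6, b1]
  · right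
    have h1 : P 0 0 = 1 := sub_eq_zero.1 h
    ext i j
    fin_cases i <;> fin_cases j <;> simp [h1, ← a1, ← a2, a3, a4, b2, ← b3, ← a6, b1]

end Pool.Agent.Work.MP_3119c3_an
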