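import Mathlib
import Pool.Agent.Work.MP_3119c3_an.Defs
import Pool.Agent.Work.MP_3119c3_an.Main

set_option autoImplicit false

open MeasureTheory AddCircle
open scoped ENNReal ComplexConjugate

namespace Pool.Agent.Work.MP_3119c3_an

/-- the obstruction for three different indices -/
lemma ac_obstruction_gen {n : ℕ} (M : Matrix (Fin n) (Fin n) ℂ) (hM : IsModifiedACMatrix M)
    (p q t : Fin n) (hpq : p ≠ q) (hpt : p ≠ t) (hqt : q ≠ t) (h01 : M p q = 0)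
    (h02 : M p t ≠ 0) (h12 : M q t ≠ 0) :
    ∃ r s : ℝ, 0 < r ∧ 0 < s ∧ (r : ℂ) * M p t ^ 2 = (s : ℂ) * M q t ^ 2 := by
  obtain ⟨Θ, φ, e, hΘ, ⟨c, a, α, ζ, w, k, -, -, hB, hα, hinj, hζ, hBζ, hw1, hw, hk, he⟩, hM⟩ := hM
  obtain ⟨H, hH⟩ := kernel_form Θ φ α hα (blaschke c a) hB ζ hinj hζ hBζ k hk
  have hkm : ∀ j, k j ∈ modelSpace Θ := fun j =>
    kernel_mem Θ hΘ α (ζ j) hα (hζ j) (blaschke c a) hB (hBζ j) (k j) (hk j)
  have hem : ∀ j, e j ∈ modelSpace Θ := fun j => by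
    rw [he j]; exact (modelSpace Θ).smul_mem _ (hkm j)
  have hMij : ∀ i j, M i j = conj (w i) * w j / ((‖k i‖ : ℂ) * ‖k j‖) * inner ℂ (k i) (mulOp φ (k j)) := by
    intro i j
    rw [hM i j, inner_TTO Θ φ (e i) (e j) (hem i), he i, he j, map_smul, inner_smul_left, inner_smul_right]
    simp only [map_div₀, Complex.conj_ofReal]
    ring
  have hc : ∀ i, conj (ζ i) * ζ i = 1 := fun i => by
    rw [mul_comm, Complex.mul_conj, Complex.normSq_eq_norm_sq, hζ]; simp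
  have hcw : ∀ i, conj (w i) * w i = 1 := fun i => by
    rw [mul_comm, Complex.mul_conj, Complex.normSq_eq_norm_sq, hw1]; simp
  have hn0 : (‖k p‖ : ℂ) ≠ 0 := by
    intro h; apply h02; rw [hMij p t, h]; simp
  have hn1 : (‖k q‖ : ℂ) ≠ 0 := by
    intro h; apply h12; rw [hMij q t, h]; simp
  have hn2 : (‖k t‖ : ℂ) ≠ 0 := by
    intro h; apply h12; rw [hMij q t, h]; simp
  have hw0 : ∀ i, w i ≠ 0 := fun i => right_ne_zero_of_mul_eq_one (hcw i)
  have hcw0 : ∀ i, conj (w i) ≠ 0 := fun i => left_ne_zero_of_mul_eq_one (hcw i)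
  have hI01 : inner ℂ (k p) (mulOp φ (k q)) = 0 := by
    have h1 := hMij p q
    rw [h01] at h1
    have h2 : conj (w p) * w q / ((‖k p‖ : ℂ) * ‖k q‖) ≠ 0 :=
      div_ne_zero (mul_ne_zero (hcw0 p) (hw0 q)) (mul_ne_zero hn0 hn1)
    exact (mul_eq_zero.1 h1.symm).resolve_left h2
  have hH01 : H p = H q := by
    have h1 := hH p q hpq
    rw [hI01, zero_mul] at h1
    have h2 : ζ q ≠ 0 := right_ne_zero_of_mul_eq_one (hc q)
    have h3 := (mul_eq_zero.1 h1.symm).resolve_left h2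
    exact sub_eq_zero.1 h3
  have hE : M p t * ‖k p‖ * w p * (ζ t - ζ p) = M q t * ‖k q‖ * w q * (ζ t - ζ q) := by
    have h1 := hH p t hpt
    have h2 := hH q t hqt
    rw [← hH01] at h2
    have h3 : M p t * ‖k p‖ * w p * (ζ t - ζ p) = w t / ‖k t‖ * (inner ℂ (k p) (mulOp φ (k t)) * (ζ t - ζ p)) := by
      rw [hMij p t]
      field_simp
      linear_combination (w t * inner ℂ (k p) (mulOp φ (k t)) * (ζ t - ζ p)) * hcw p
    have h4 : M q t * ‖k q‖ * w q * (ζ t - ζ q) = w t / ‖k t‖ * (inner ℂ (k q) (mulOp φ (k t)) * (ζ t - ζ q)) := by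
      rw [hMij q t]
      field_simp
      linear_combination (w t * inner ℂ (k q) (mulOp φ (k t)) * (ζ t - ζ q)) * hcw q
    rw [h3, h4, h1, h2]
  refine ⟨‖k p‖ ^ 2 * ‖ζ t - ζ p‖ ^ 2, ‖k q‖ ^ 2 * ‖ζ t - ζ q‖ ^ 2, ?_, ?_, ?_⟩
  · have h1 : ‖k p‖ ≠ 0 := by exact_mod_cast hn0
    have h2 : ‖ζ t - ζ p‖ ≠ 0 := by
      rw [norm_ne_zero_iff, sub_ne_zero]
      exact fun h => hpt (hinj h).symm
    positivity
  · have h1 : ‖k q‖ ≠ 0 := by exact_mod_cast hn1
    have h2 : ‖ζ t - ζ q‖ ≠ 0 := by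
      rw [norm_ne_zero_iff, sub_ne_zero]
      exact fun h => hqt (hinj h).symm
    positivity
  · have hα0 : α ≠ 0 := by
      rw [← norm_ne_zero_iff, hα]; norm_num
    have hz2 : ζ t ≠ 0 := right_ne_zero_of_mul_eq_one (hc t)
    have hsq : (M p t * ‖k p‖ * w p * (ζ t - ζ p)) ^ 2 = (M q t * ‖k q‖ * w q * (ζ t - ζ q)) ^ 2 := by
      rw [hE]
    have u0 := unimod_identity (ζ p) (ζ t) (hc p) (hc t)
    have u1 := unimod_identity (ζ q) (ζ t) (hc q) (hc t)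
    have hw0' := hw p
    have hw1' := hw q
    have key : (-ζ t * α) * (((‖k p‖ ^ 2 * ‖ζ t - ζ p‖ ^ 2 : ℝ) : ℂ) * M p t ^ 2) =
        (-ζ t * α) * (((‖k q‖ ^ 2 * ‖ζ t - ζ q‖ ^ 2 : ℝ) : ℂ) * M q t ^ 2) := by
      have e0 : (-ζ t * α) * (((‖k p‖ ^ 2 * ‖ζ t - ζ p‖ ^ 2 : ℝ) : ℂ) * M p t ^ 2) =
          (M p t * ‖k p‖ * w p * (ζ t - ζ p)) ^ 2 := by
        push_cast at u0 ⊢
        linear_combination (-(α * (‖k p‖ : ℂ) ^ 2 * M p t ^ 2)) * u0 - (M p t ^ 2 * (‖k p‖ : ℂ) ^ 2 * (ζ t - ζ p) ^ 2) * hw0'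
      have e1 : (-ζ t * α) * (((‖k q‖ ^ 2 * ‖ζ t - ζ q‖ ^ 2 : ℝ) : ℂ) * M q t ^ 2) =
          (M q t * ‖k q‖ * w q * (ζ t - ζ q)) ^ 2 := by
        push_cast at u1 ⊢
        linear_combination (-(α * (‖k q‖ : ℂ) ^ 2 * M q t ^ 2)) * u1 - (M q t ^ 2 * (‖k q‖ : ℂ) ^ 2 * (ζ t - ζ q) ^ 2) * hw1'
      rw [e0, e1, hsq]
    exact mul_left_cancel₀ (mul_ne_zero (neg_ne_zero.2 hz2) hα0) key

/-! ### the model space of `z ^ n` -/

lemma isInner_zn (n : ℕ) : IsInner (fourierLp ∞ (n : ℤ)) := by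
  constructor
  · filter_upwards [coeFn_fourierLp (T := 1) ∞ (n : ℤ)] with x hx
    rw [hx, fourier_apply, Circle.norm_coe]
  · intro m hm
    rw [fourierCoeff_congr_ae (coeFn_fourierLp (T := 1) ∞ (n : ℤ)), fourierCoeff_fourier]
    exact Pi.single_eq_of_ne (by omega) _

lemma inner_mulOp_fourier (N : ℤ) (g : L2T) (m : ℤ) :
    inner ℂ (mulOp (fourierLp ∞ N) g) (ee m) = inner ℂ g (ee (m - N)) := by
  rw [MeasureTheory.L2.inner_def, MeasureTheory.L2.inner_def]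
  refine integral_congr_ae ?_
  filter_upwards [coe_mulOp (fourierLp ∞ N) g, coeFn_fourierLp (T := 1) ∞ N, coeFn_fourierLp (T := 1) 2 m,
    coeFn_fourierLp (T := 1) 2 (m - N)] with x h1 h2 h3 h4
  rw [h1, h2, h3, h4]
  simp only [RCLike.inner_apply, map_mul]
  rw [show m - N = m + (-N) by ring, fourier_add, fourier_neg]
  ring

lemma ee_mem_model' (n : ℕ) (m : ℤ) (hn : 0 ≤ m) (hn3 : m < n) : ee m ∈ modelSpace (fourierLp ∞ (n : ℤ)) := by
  refine ⟨ee_mem_hardy m hn, ?_⟩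
  rw [SetLike.mem_coe, Submodule.mem_orthogonal]
  rintro _ ⟨g, hg, rfl⟩
  rw [inner_mulOp_fourier, ← inner_conj_symm, ← fourierCoeff_eq_inner]
  rw [SetLike.mem_coe, mem_hardy] at hg
  rw [hg (m - n) (by omega), map_zero]

/-- `z^m` for `m : Fin n` -/
noncomputable def ez (n : ℕ) (m : Fin n) : L2T := ee (m : ℕ)

lemma inner_ez {n : ℕ} (i j : Fin n) : inner ℂ (ez n i) (ez n j) = if i = j then (1 : ℂ) else 0 := by
  unfold ez
  rw [inner_ee]
  by_cases h : i = j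
  · simp [h]
  · rw [if_neg h, if_neg]
    intro h2
    exact h (Fin.ext (by exact_mod_cast h2))

lemma model_eq_span (n : ℕ) : modelSpace (fourierLp ∞ (n : ℤ)) = Submodule.span ℂ (Set.range (ez n)) := by
  apply le_antisymm
  · intro f hf
    have h := HilbertBasis.hasSum_repr (fourierBasis (T := 1)) f
    have h0 : ∀ m ∉ (Finset.Ico (0 : ℤ) n), (fourierBasis (T := 1)).repr f m • fourierBasis (T := 1) m = 0 := by
      intro m hm
      have hz : (fourierBasis (T := 1)).repr f m = 0 := by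
        rw [HilbertBasis.repr_apply_apply, coe_fourierBasis]
        rcases lt_or_ge m 0 with h1 | h1
        · rw [← fourierCoeff_eq_inner]
          exact hf.1 m h1
        · have h3 : (n : ℤ) ≤ m := by
            simp only [Finset.mem_Ico, not_and, not_lt] at hm
            exact hm h1
          have h4 := (Submodule.mem_orthogonal _ _).1 hf.2 (mulOp (fourierLp ∞ (n : ℤ)) (ee (m - n)))
            ⟨ee (m - n), ee_mem_hardy _ (by omega), rfl⟩
          rw [mulOp_fourier, show (n : ℤ) + (m - n) = m by ring] at h4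
          exact h4
      rw [hz, zero_smul]
    have h1 := h.unique (hasSum_sum_of_ne_finset_zero h0)
    rw [h1]
    refine Submodule.sum_mem _ (fun m hm => Submodule.smul_mem _ _ ?_)
    rw [Finset.mem_Ico] at hm
    rw [coe_fourierBasis]
    refine Submodule.subset_span ⟨⟨m.toNat, by omega⟩, ?_⟩
    unfold ez
    simp only
    rw [Int.toNat_of_nonneg hm.1]
  · rw [Submodule.span_le]
    rintro _ ⟨i, rfl⟩
    exact ee_mem_model' n _ (by positivity) (by exact_mod_cast i.2)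

end Pool.Agent.Work.MP_3119c3_an
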