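import Mathlib
import Pool.Agent.Work.MP_3119c3_an.Defs
import Pool.Agent.Work.MP_3119c3_an.Main
import Pool.Agent.Work.MP_3119c3_an.Gen

set_option autoImplicit false

open MeasureTheory AddCircle
open scoped ENNReal ComplexConjugate Matrix

namespace Pool.Agent.Work.MP_3119c3_an

variable {n : ℕ}

/-- the coefficient of `z^j` in the `j`-th basis vector -/
noncomputable def ca (j : Fin n) : ℂ :=
  if j < j.rev then rr else if j.rev < j then -(Complex.I * rr) else 1

/-- the coefficient of `z^(n-1-j)` in the `j`-th basis vector -/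
noncomputable def cb (j : Fin n) : ℂ :=
  if j < j.rev then rr else if j.rev < j then Complex.I * rr else 0

/-- coordinates of the basis vectors -/
noncomputable def Fm (n : ℕ) : Matrix (Fin n) (Fin n) ℂ :=
  Matrix.of fun m j => (if m = j then ca j else 0) + (if m = j.rev then cb j else 0)

/-- the matrix of the compressed shift in the monomial basis -/
noncomputable def Nm (n : ℕ) : Matrix (Fin n) (Fin n) ℂ :=
  Matrix.of fun m l => if (m : ℕ) = l + 1 then 1 else 0

noncomputable def Km (n : ℕ) : Matrix (Fin n) (Fin n) ℂ :=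
  Matrix.of fun m l => if (m : ℕ) + l + 2 = n then 1 else 0

noncomputable def Mn (n : ℕ) : Matrix (Fin n) (Fin n) ℂ := (Fm n)ᴴ * Nm n * Fm n

lemma rr_sq2 : rr ^ 2 = 1 / 2 := by rw [sq, rr_sq]

lemma Fm_conj (m j : Fin n) : conj (Fm n m j) = Fm n m.rev j := by
  unfold Fm
  simp only [Matrix.of_apply, map_add]
  have h1 : (m.rev = j) ↔ (m = j.rev) := by
    constructor
    · intro h; rw [← h, Fin.rev_rev]
    · intro h; rw [h, Fin.rev_rev]
  have h2 : (m.rev = j.rev) ↔ (m = j) := Fin.rev_inj
  simp only [h1, h2]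
  unfold ca cb
  rcases lt_trichotomy j j.rev with h | h | h
  · have e1 : ¬ (j = j.rev) := h.ne
    simp only [h, if_true]
    by_cases a : m = j
    · have : ¬ m = j.rev := by rw [a]; exact e1
      simp [a, e1, conj_rr]
    · by_cases b : m = j.rev
      · have : ¬ j.rev = j := fun h => e1 h.symm
        simp [b, this, conj_rr]
      · simp [a, b]
  · have e1 : ¬ (j < j.rev) := by rw [← h]; exact lt_irrefl _
    have e2 : ¬ (j.rev < j) := by rw [← h]; exact lt_irrefl _
    simp only [e1, e2, if_false]
    by_cases a : m = j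
    · simp [a, ← h]
    · simp [a, ← h]
  · have e1 : ¬ (j < j.rev) := h.not_gt
    have e2 : ¬ (j.rev = j) := h.ne
    have e3 : ¬ (j = j.rev) := fun h => e2 h.symm
    simp only [e1, if_false, h, if_true]
    by_cases a : m = j
    · simp [a, e3, conj_rr]
    · by_cases b : m = j.rev
      · simp [b, e2, conj_rr]
      · simp [a, b]

lemma Fm_unitary : (Fm n)ᴴ * Fm n = 1 := by
  ext i j
  rw [Matrix.mul_apply]
  simp only [Matrix.conjTranspose_apply, Fm, Matrix.of_apply, star_add, RCLike.star_def]
  have h1 : ∀ x : Fin n, (conj (if x = i then ca i else 0) + conj (if x = i.rev then cb i else 0)) *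
      ((if x = j then ca j else 0) + (if x = j.rev then cb j else 0)) =
      (if x = i then conj (ca i) * ((if i = j then ca j else 0) + (if i = j.rev then cb j else 0)) else 0) +
      (if x = i.rev then conj (cb i) * ((if i.rev = j then ca j else 0) + (if i.rev = j.rev then cb j else 0)) else 0) := by
    intro x
    have e1 : conj (if x = i then ca i else 0) * ((if x = j then ca j else 0) + (if x = j.rev then cb j else 0)) =
        (if x = i then conj (ca i) * ((if i = j then ca j else 0) + (if i = j.rev then cb j else 0)) else 0) := by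
      by_cases h : x = i
      · subst h; simp
      · simp [h]
    have e2 : conj (if x = i.rev then cb i else 0) * ((if x = j then ca j else 0) + (if x = j.rev then cb j else 0)) =
        (if x = i.rev then conj (cb i) * ((if i.rev = j then ca j else 0) + (if i.rev = j.rev then cb j else 0)) else 0) := by
      by_cases h : x = i.rev
      · subst h; simp
      · simp [h]
    rw [add_mul, e1, e2]
  rw [Finset.sum_congr rfl (fun x _ => h1 x), Finset.sum_add_distrib, Finset.sum_ite_eq', Finset.sum_ite_eq']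
  simp only [Finset.mem_univ, if_true, Fin.rev_inj, Matrix.one_apply]
  have hr := rr_sq
  have hI := Complex.I_mul_I
  by_cases hij : i = j
  · subst hij
    simp only [if_true]
    unfold ca cb
    rcases lt_trichotomy i i.rev with h | h | h
    · have e1 : ¬ (i = i.rev) := h.ne
      have e2 : ¬ (i.rev = i) := fun h => e1 h.symm
      simp only [h, if_true, e1, e2, if_false, conj_rr]
      linear_combination 2 * hr
    · have e1 : ¬ (i < i.rev) := by rw [← h]; exact lt_irrefl _
      have e2 : ¬ (i.rev < i) := by rw [← h]; exact lt_irrefl _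
      simp only [e1, e2, if_false]
      simp
    · have e1 : ¬ (i < i.rev) := h.not_gt
      have e2 : ¬ (i.rev = i) := h.ne
      have e3 : ¬ (i = i.rev) := fun h => e2 h.symm
      simp only [e1, if_false, h, if_true, e2, e3, map_neg, map_mul, conj_rr, Complex.conj_I]
      linear_combination (-2 * rr * rr) * hI + 2 * hr
  · simp only [hij, if_false]
    by_cases hr2 : i = j.rev
    · subst hr2
      have hne : ¬ (j.rev = j) := hij
      simp only [if_true, Fin.rev_rev, zero_add, add_zero]
      unfold ca cb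
      rcases lt_trichotomy j j.rev with h | h | h
      · have e1 : ¬ (j.rev < j) := h.not_gt
        simp only [h, if_true, Fin.rev_rev, e1, if_false, map_neg, map_mul, conj_rr, Complex.conj_I]
        ring
      · exact absurd h.symm hne
      · have e1 : ¬ (j < j.rev) := h.not_gt
        simp only [h, if_true, Fin.rev_rev, e1, if_false, conj_rr]
        ring
    · have : ¬ (i.rev = j) := by
        intro h; apply hr2; rw [← h, Fin.rev_rev]
      simp [hr2, this]

lemma Fm_unitary' : Fm n * (Fm n)ᴴ = 1 := mul_eq_one_comm.1 Fm_unitary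

lemma Mn_eq : Mn n = (Fm n)ᵀ * Km n * Fm n := by
  have h : (Fm n)ᴴ * Nm n = (Fm n)ᵀ * Km n := by
    ext i l
    rw [Matrix.mul_apply, Matrix.mul_apply, ← Equiv.sum_comp (Fin.revPerm)]
    refine Finset.sum_congr rfl (fun m _ => ?_)
    rw [Matrix.conjTranspose_apply, Matrix.transpose_apply, RCLike.star_def, Fin.revPerm_apply, Fm_conj, Fin.rev_rev]
    congr 1
    unfold Nm Km
    simp only [Matrix.of_apply, Fin.val_rev]
    have := m.2
    have := l.2
    refine if_congr ?_ rfl rfl
    constructor <;> intro h <;> omega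
  rw [Mn, h]

lemma Mn_symm : (Mn n).IsSymm := by
  unfold Matrix.IsSymm
  rw [Mn_eq, Matrix.transpose_mul, Matrix.transpose_mul, Matrix.transpose_transpose, ← mul_assoc]
  congr 2
  ext m l
  simp only [Km, Matrix.transpose_apply, Matrix.of_apply]
  refine if_congr ?_ rfl rfl
  constructor <;> intro h <;> omega

lemma comm_shift (Q : Matrix (Fin n) (Fin n) ℂ) (h1 : Q * Nm n = Nm n * Q)
    (h2 : Q * (Nm n)ᴴ = (Nm n)ᴴ * Q) : ∃ c : ℂ, Q = c • (1 : Matrix (Fin n) (Fin n) ℂ) := by
  rcases Nat.eq_zero_or_pos n with h0 | h0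
  · subst h0
    exact ⟨0, by ext i; exact i.elim0⟩
  -- the first column
  have hcol : ∀ m : Fin n, m ≠ ⟨0, h0⟩ → Q m ⟨0, h0⟩ = 0 := by
    intro m hm
    have hm0 : (m : ℕ) ≠ 0 := fun h => hm (Fin.ext h)
    have e := congrFun (congrFun h2 ⟨m - 1, by omega⟩) ⟨0, h0⟩
    rw [Matrix.mul_apply, Matrix.mul_apply] at e
    simp only [Matrix.conjTranspose_apply, Nm, Matrix.of_apply] at e
    rw [Finset.sum_eq_zero, Finset.sum_eq_single m] at e
    · have e3 : (m : ℕ) = m - 1 + 1 := by omega
      rw [if_pos e3] at e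
      simpa using e.symm
    · intro b _ hb
      have : ¬ ((b : ℕ) = m - 1 + 1) := fun h => hb (Fin.ext (by omega))
      simp [this]
    · intro h; exact absurd (Finset.mem_univ _) h
    · intro x _
      simp
  -- the recursion
  have hrec : ∀ (m l : Fin n) (hl : (l : ℕ) + 1 < n), Q m ⟨l + 1, hl⟩ =
      if h : 0 < (m : ℕ) then Q ⟨m - 1, by omega⟩ l else 0 := by
    intro m l hl
    have e := congrFun (congrFun h1 m) l
    rw [Matrix.mul_apply, Matrix.mul_apply] at e
    simp only [Nm, Matrix.of_apply] at e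
    rw [Finset.sum_eq_single (⟨l + 1, hl⟩ : Fin n)] at e
    · simp only [if_true, mul_one] at e
      rw [e]
      split_ifs with h
      · rw [Finset.sum_eq_single (⟨m - 1, by omega⟩ : Fin n)]
        · have : (m : ℕ) = m - 1 + 1 := by omega
          simp only
          rw [if_pos this, one_mul]
        · intro b _ hb
          have : ¬ ((m : ℕ) = b + 1) := fun h => hb (Fin.ext (by simp only; omega))
          rw [if_neg this, zero_mul]
        · intro h; exact absurd (Finset.mem_univ _) h
      · refine Finset.sum_eq_zero (fun x _ => ?_)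
        have : ¬ ((m : ℕ) = x + 1) := by omega
        rw [if_neg this, zero_mul]
    · intro b _ hb
      have : ¬ ((b : ℕ) = l + 1) := fun h => hb (Fin.ext h)
      rw [if_neg this, mul_zero]
    · intro h; exact absurd (Finset.mem_univ _) h
  refine ⟨Q ⟨0, h0⟩ ⟨0, h0⟩, ?_⟩
  have main : ∀ (l : ℕ) (hl : l < n) (m : Fin n), Q m ⟨l, hl⟩ = if (m : ℕ) = l then Q ⟨0, h0⟩ ⟨0, h0⟩ else 0 := by
    intro l
    induction l with
    | zero =>
      intro hl m
      split_ifs with h
      · congr 1
        exact Fin.ext h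
      · exact hcol m (fun hh => h (by rw [hh]))
    | succ l ih =>
      intro hl m
      have e := hrec m ⟨l, by omega⟩ hl
      simp only at e
      rw [e]
      by_cases h : 0 < (m : ℕ)
      · rw [dif_pos h, ih (by omega)]
        simp only
        refine if_congr ?_ rfl rfl
        omega
      · rw [dif_neg h, if_neg (by omega)]
  ext m l
  rw [Matrix.smul_apply, Matrix.one_apply, smul_eq_mul, mul_ite, mul_one, mul_zero]
  have := main l l.2 m
  rw [this]
  refine if_congr ?_ rfl rfl
  exact ⟨fun h => Fin.ext h, fun h => by rw [h]⟩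

lemma Mn_irreducible : IsIrreducible (Mn n) := by
  intro P hP hPP hPM
  have hF := Fm_unitary (n := n)
  have hF' := Fm_unitary' (n := n)
  set Q := Fm n * P * (Fm n)ᴴ with hQ
  have hN : Fm n * Mn n * (Fm n)ᴴ = Nm n := by
    rw [Mn]
    calc Fm n * ((Fm n)ᴴ * Nm n * Fm n) * (Fm n)ᴴ = (Fm n * (Fm n)ᴴ) * Nm n * (Fm n * (Fm n)ᴴ) := by
          simp only [Matrix.mul_assoc]
      _ = Nm n := by rw [hF', one_mul, mul_one]
  have hback : P = (Fm n)ᴴ * Q * Fm n := by
    rw [hQ]
    calc P = ((Fm n)ᴴ * Fm n) * P * ((Fm n)ᴴ * Fm n) := by rw [hF, one_mul, mul_one]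
      _ = _ := by simp only [Matrix.mul_assoc]
  have h1 : Q * Nm n = Nm n * Q := by
    rw [← hN, hQ]
    calc Fm n * P * (Fm n)ᴴ * (Fm n * Mn n * (Fm n)ᴴ) = Fm n * P * ((Fm n)ᴴ * Fm n) * Mn n * (Fm n)ᴴ := by
          simp only [Matrix.mul_assoc]
      _ = Fm n * (P * Mn n) * (Fm n)ᴴ := by rw [hF, mul_one]; simp only [Matrix.mul_assoc]
      _ = Fm n * (Mn n * P) * (Fm n)ᴴ := by rw [hPM]
      _ = Fm n * Mn n * ((Fm n)ᴴ * Fm n) * P * (Fm n)ᴴ := by rw [hF, mul_one]; simp only [Matrix.mul_assoc]
      _ = _ := by simp only [Matrix.mul_assoc]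
  have hQH : Qᴴ = Q := by
    rw [hQ, Matrix.conjTranspose_mul, Matrix.conjTranspose_mul, Matrix.conjTranspose_conjTranspose, hP.eq,
      Matrix.mul_assoc]
  have h2 : Q * (Nm n)ᴴ = (Nm n)ᴴ * Q := by
    have := congrArg Matrix.conjTranspose h1
    rw [Matrix.conjTranspose_mul Q (Nm n), Matrix.conjTranspose_mul (Nm n) Q, hQH] at this
    exact this.symm
  obtain ⟨c, hc⟩ := comm_shift Q h1 h2
  have hPc : P = c • (1 : Matrix (Fin n) (Fin n) ℂ) := by
    rw [hback, hc, Matrix.mul_smul, mul_one, Matrix.smul_mul, hF]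
  rcases Nat.eq_zero_or_pos n with h0 | h0
  · subst h0
    left; ext i; exact i.elim0
  have e := congrFun (congrFun hPP ⟨0, h0⟩) ⟨0, h0⟩
  rw [hPc] at e
  simp only [Matrix.smul_mul, one_mul, Matrix.smul_apply, Matrix.one_apply_eq, smul_eq_mul, mul_one] at e
  have h3 : c * (c - 1) = 0 := by linear_combination e
  rcases mul_eq_zero.1 h3 with h | h
  · left; rw [hPc, h, zero_smul]
  · right; rw [hPc, sub_eq_zero.1 h, one_smul]

end Pool.Agent.Work.MP_3119c3_an
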