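import Mathlib
import Pool.Agent.Work.MP_3119c3_an.Defs
import Pool.Agent.Work.MP_3119c3_an.Main
import Pool.Agent.Work.MP_3119c3_an.Gen
import Pool.Agent.Work.MP_3119c3_an.Gen2

set_option autoImplicit false

open MeasureTheory AddCircle
open scoped ENNReal ComplexConjugate Matrix

namespace Pool.Agent.Work.MP_3119c3_an

variable {n : ℕ}

/-- the basis of the model space of `z ^ n` -/
noncomputable def fn (n : ℕ) (j : Fin n) : L2T := ∑ m, Fm n m j • ez n m

lemma inner_fn_ez (j m : Fin n) : inner ℂ (ez n m) (fn n j) = Fm n m j := by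
  unfold fn
  rw [inner_sum]
  simp only [inner_smul_right, inner_ez, mul_ite, mul_one, mul_zero]
  rw [Finset.sum_ite_eq]
  simp

lemma inner_fn_left (j : Fin n) (g : L2T) : inner ℂ (fn n j) g = ∑ m, conj (Fm n m j) * inner ℂ (ez n m) g := by
  unfold fn
  rw [sum_inner]
  simp only [inner_smul_left]

lemma fn_orthonormal : Orthonormal ℂ (fn n) := by
  rw [orthonormal_iff_ite]
  intro i j
  rw [inner_fn_left]
  simp only [inner_fn_ez]
  have h := congrFun (congrFun (Fm_unitary (n := n)) i) j
  rw [Matrix.mul_apply, Matrix.one_apply] at h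
  simp only [Matrix.conjTranspose_apply, RCLike.star_def] at h
  exact h

lemma ez_eq (m : Fin n) : ez n m = ∑ j, conj (Fm n m j) • fn n j := by
  unfold fn
  simp only [Finset.smul_sum, smul_smul]
  rw [Finset.sum_comm]
  have h : ∀ l : Fin n, ∑ j, (conj (Fm n m j) * Fm n l j) • ez n l = (if l = m then (1 : ℂ) else 0) • ez n l := by
    intro l
    rw [← Finset.sum_smul]
    congr 1
    have h := congrFun (congrFun (Fm_unitary' (n := n)) l) m
    rw [Matrix.mul_apply, Matrix.one_apply] at h
    simp only [Matrix.conjTranspose_apply, RCLike.star_def] at h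
    rw [← h]
    exact Finset.sum_congr rfl (fun j _ => mul_comm _ _)
  rw [Finset.sum_congr rfl (fun l _ => h l)]
  simp only [ite_smul, one_smul, zero_smul]
  rw [Finset.sum_ite_eq']
  simp

lemma fn_span : Submodule.span ℂ (Set.range (fn n)) = modelSpace (fourierLp ∞ (n : ℤ)) := by
  rw [model_eq_span]
  apply le_antisymm
  · rw [Submodule.span_le]
    rintro _ ⟨i, rfl⟩
    exact Submodule.sum_mem _ (fun m _ => Submodule.smul_mem _ _ (Submodule.subset_span ⟨m, rfl⟩))
  · rw [Submodule.span_le]
    rintro _ ⟨i, rfl⟩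
    rw [ez_eq]
    exact Submodule.sum_mem _ (fun m _ => Submodule.smul_mem _ _ (Submodule.subset_span ⟨m, rfl⟩))

lemma fn_mem (j : Fin n) : fn n j ∈ modelSpace (fourierLp ∞ (n : ℤ)) := by
  rw [← fn_span]
  exact Submodule.subset_span ⟨j, rfl⟩

lemma inner_shift (m l : Fin n) : inner ℂ (ez n m) (mulOp (fourierLp ∞ 1) (ez n l)) = Nm n m l := by
  unfold ez
  rw [mulOp_fourier, inner_ee]
  unfold Nm
  simp only [Matrix.of_apply]
  refine if_congr ?_ rfl rfl
  constructor <;> intro h <;> omega

lemma Mn_entries (i j : Fin n) : Mn n i j = inner ℂ (fn n i) (TTO (fourierLp ∞ (n : ℤ)) (fourierLp ∞ 1) (fn n j)) := by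
  rw [inner_TTO _ _ _ _ (fn_mem i), inner_fn_left, Mn, Matrix.mul_assoc, Matrix.mul_apply]
  refine Finset.sum_congr rfl (fun m _ => ?_)
  rw [Matrix.conjTranspose_apply, RCLike.star_def]
  congr 1
  rw [Matrix.mul_apply]
  unfold fn
  rw [map_sum, inner_sum]
  refine Finset.sum_congr rfl (fun l _ => ?_)
  rw [map_smul, inner_smul_right, inner_shift, mul_comm]

lemma Mn_expand (i j : Fin n) : Mn n i j = ca i * (ca j * Km n i j + cb j * Km n i j.rev) +
    cb i * (ca j * Km n i.rev j + cb j * Km n i.rev j.rev) := by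
  have hcol : ∀ (x y : Fin n), (Km n * Fm n) x y = ca y * Km n x y + cb y * Km n x y.rev := by
    intro x y
    rw [Matrix.mul_apply]
    have h1 : ∀ l : Fin n, Km n x l * Fm n l y = (if l = y then ca y * Km n x y else 0) +
        (if l = y.rev then cb y * Km n x y.rev else 0) := by
      intro l
      unfold Fm
      simp only [Matrix.of_apply]
      rw [mul_add]
      congr 1
      · by_cases h : l = y
        · rw [if_pos h, if_pos h, h, mul_comm]
        · rw [if_neg h, if_neg h, mul_zero]
      · by_cases h : l = y.rev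
        · rw [if_pos h, if_pos h, h, mul_comm]
        · rw [if_neg h, if_neg h, mul_zero]
    rw [Finset.sum_congr rfl (fun l _ => h1 l), Finset.sum_add_distrib, Finset.sum_ite_eq', Finset.sum_ite_eq']
    simp
  rw [Mn_eq, Matrix.mul_assoc, Matrix.mul_apply]
  have h1 : ∀ m : Fin n, (Fm n)ᵀ i m * (Km n * Fm n) m j =
      (if m = i then ca i * (ca j * Km n i j + cb j * Km n i j.rev) else 0) +
      (if m = i.rev then cb i * (ca j * Km n i.rev j + cb j * Km n i.rev j.rev) else 0) := by
    intro m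
    rw [hcol]
    unfold Fm
    simp only [Matrix.transpose_apply, Matrix.of_apply]
    rw [add_mul]
    congr 1
    · by_cases h : m = i
      · rw [if_pos h, if_pos h, h]
      · rw [if_neg h, if_neg h, zero_mul]
    · by_cases h : m = i.rev
      · rw [if_pos h, if_pos h, h]
      · rw [if_neg h, if_neg h, zero_mul]
  rw [Finset.sum_congr rfl (fun m _ => h1 m), Finset.sum_add_distrib, Finset.sum_ite_eq', Finset.sum_ite_eq']
  simp

lemma Km_pos {x y : Fin n} (h : (x : ℕ) + y + 2 = n) : Km n x y = 1 := by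
  simp only [Km, Matrix.of_apply, if_pos h]

lemma Km_neg {x y : Fin n} (h : ¬ (x : ℕ) + y + 2 = n) : Km n x y = 0 := by
  simp only [Km, Matrix.of_apply, if_neg h]

lemma Mn_not_AC (hn : 3 ≤ n) : ¬ IsModifiedACMatrix (Mn n) := by
  intro hM
  set p : Fin n := ⟨0, by omega⟩ with hp
  set q : Fin n := ⟨n - 1, by omega⟩ with hq
  set t : Fin n := ⟨1, by omega⟩ with ht
  have hpv : (p : ℕ) = 0 := rfl
  have hqv : (q : ℕ) = n - 1 := rfl
  have htv : (t : ℕ) = 1 := rfl
  have hpr : ((p.rev : Fin n) : ℕ) = n - 1 := by rw [Fin.val_rev, hpv]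
  have hqr : ((q.rev : Fin n) : ℕ) = 0 := by rw [Fin.val_rev, hqv]; omega
  have htr : ((t.rev : Fin n) : ℕ) = n - 2 := by rw [Fin.val_rev, htv]
  have h1 : p < p.rev := by rw [Fin.lt_def]; omega
  have h2 : q.rev < q := by rw [Fin.lt_def]; omega
  have h2' : ¬ q < q.rev := h2.not_gt
  have cap : ca p = rr := by unfold ca; rw [if_pos h1]
  have cbp : cb p = rr := by unfold cb; rw [if_pos h1]
  have caq : ca q = -(Complex.I * rr) := by unfold ca; rw [if_neg h2', if_pos h2]
  have cbq : cb q = Complex.I * rr := by unfold cb; rw [if_neg h2', if_pos h2]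
  have hpq : Mn n p q = 0 := by
    rw [Mn_expand, Km_neg (by omega), Km_neg (by omega), Km_neg (by omega), Km_neg (by omega)]
    ring
  have hpt : Mn n p t = rr * (ca t * Km n p t + cb t) := by
    rw [Mn_expand, cap, cbp, Km_pos (x := p) (y := t.rev) (by omega), Km_neg (x := p.rev) (y := t) (by omega),
      Km_neg (x := p.rev) (y := t.rev) (by omega)]
    ring
  have hqt : Mn n q t = Complex.I * (rr * (ca t * Km n p t + cb t)) := by
    have e : q.rev = p := Fin.ext (by omega)
    rw [Mn_expand, caq, cbq, e, Km_pos (x := p) (y := t.rev) (by omega), Km_neg (x := q) (y := t) (by omega),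
      Km_neg (x := q) (y := t.rev) (by omega)]
    ring
  have hne : rr * (ca t * Km n p t + cb t) ≠ 0 := by
    refine mul_ne_zero rr_ne ?_
    rcases Nat.lt_or_ge 3 n with h | h
    · have h3 : t < t.rev := by rw [Fin.lt_def]; omega
      have : cb t = rr := by unfold cb; rw [if_pos h3]
      rw [this, Km_neg (by omega), mul_zero, zero_add]
      exact rr_ne
    · have h3 : ¬ t < t.rev := by rw [Fin.lt_def]; omega
      have h4 : ¬ t.rev < t := by rw [Fin.lt_def]; omega
      have e1 : ca t = 1 := by unfold ca; rw [if_neg h3, if_neg h4]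
      have e2 : cb t = 0 := by unfold cb; rw [if_neg h3, if_neg h4]
      rw [e1, e2, Km_pos (by omega)]
      norm_num
  obtain ⟨r, s, hr, hs, hrs⟩ := ac_obstruction_gen (Mn n) hM p q t
    (by intro h; have := congrArg Fin.val h; omega) (by intro h; have := congrArg Fin.val h; omega)
    (by intro h; have := congrArg Fin.val h; omega) hpq (by rw [hpt]; exact hne)
    (by rw [hqt]; exact mul_ne_zero Complex.I_ne_zero hne)
  rw [hpt, hqt] at hrs
  set X := rr * (ca t * Km n p t + cb t)
  have hX : X ^ 2 ≠ 0 := pow_ne_zero 2 hne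
  have h3 : ((r + s : ℝ) : ℂ) * X ^ 2 = 0 := by
    have hI := Complex.I_mul_I
    push_cast
    linear_combination hrs + (s : ℂ) * X ^ 2 * hI
  have h4 : ((r + s : ℝ) : ℂ) = 0 := (mul_eq_zero.1 h3).resolve_right hX
  have h5 : r + s = 0 := by exact_mod_cast h4
  linarith

/-- irreducible counterexamples of every size at least three -/
lemma large (hn : 3 ≤ n) : ∃ M : Matrix (Fin n) (Fin n) ℂ,
    M.IsSymm ∧ IsIrreducible M ∧ IsUnitarilyEquivalentToTTO M ∧ ¬ IsModifiedACMatrix M :=
  ⟨Mn n, Mn_symm, Mn_irreducible,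
    ⟨fourierLp ∞ (n : ℤ), fourierLp ∞ 1, fn n, isInner_zn n, fn_orthonormal, fn_span, Mn_entries⟩, Mn_not_AC hn⟩

end Pool.Agent.Work.MP_3119c3_an
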